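import Pool.Agent.H76.GT.Idx
import Pool.Agent.H76.GU.FamP
import Pool.Agent.H65.NT.Net

/-!
# H2 WN, Defs: windows in `Z^n` (chapter WINDOWS of the theorem on linear groups)

A window is a map `f : (Fin n → ℤ) → Ob`, where `Ob` is a set with an action of `G` (in the application: tuples of homothety
classes of lattices, one for every place). Only the values of `f` in a ball of radius `c` (maximum norm) matter.
-/

set_option autoImplicit false

namespace Pool.Agent.H2.WN

open Pool.Agent.H98.FJ Pool.Agent.H76.GT Pool.Agent.H65.NT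

/-- the ball of radius `r` in `Z^n` -/
abbrev Ball (n r : ℕ) : Type := {i : Fin n → ℤ // Near r i 0}

/-- the boxes of radius `r` -/
abbrev Box (n : ℕ) (Ob : Type) (r : ℕ) : Type := Ball n r → Ob

/-- the box of radius `r` of the window `f` at the position `p` -/
def box {n : ℕ} {Ob : Type} (r : ℕ) (p : Fin n → ℤ) (f : (Fin n → ℤ) → Ob) : Box n Ob r := fun i => f (p + i.1)

/-- the window `f` is injective on the ball of radius `m` -/
def InjW {n : ℕ} {Ob : Type} (m : ℕ) (f : (Fin n → ℤ) → Ob) : Prop :=
  ∀ p q : Fin n → ℤ, Near m p 0 → Near m q 0 → f p = f q → p = q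

/-- the element `h` translates the ball of radius `m` of the window `f` by the vector `v` -/
def TrnW {G : Type} [Group G] {n : ℕ} {Ob : Type} [MulAction G Ob] (m : ℕ) (f : (Fin n → ℤ) → Ob) (h : G)
    (v : Fin n → ℤ) : Prop :=
  ∀ i : Fin n → ℤ, Near m i 0 → h • f i = f (i + v)

/-- the window `f'` is obtained from the window `f` by the shift `δ`, on the ball of radius `m` -/
def ShfW {n : ℕ} {Ob : Type} (m : ℕ) (δ : Fin n → ℤ) (f f' : (Fin n → ℤ) → Ob) : Prop :=
  ∀ i : Fin n → ℤ, Near m i 0 → f' i = f (i + δ)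

/-- Local rigidity of windows of rank `n` with `q` families of objects: for all `R`, `a` there are a radius `r`, and `q`
equivariant partial functions `Obj t` on the boxes of radius `r` with values in `G`-sets with stabilisers in `C`, such that for
every window which is injective on the ball of radius `r + R + a` either one of the objects is defined and constant for
all positions at distance at most `R` from the origin, or no element of the group translates the ball of radius `r + R` by a
nonzero vector of length at most `a`. -/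
def LocRigW (C : (G : Type) → [Group G] → Prop) (G Ob : Type) [Group G] [MulAction G Ob] (n q : ℕ) : Prop :=
  ∀ R a : ℕ, ∃ (r : ℕ) (Ω : Fin q → Type) (_ : ∀ t, MulAction G (Ω t)) (Obj : ∀ t, Box n Ob r → Ω t → Prop),
    (∀ t B o o', Obj t B o → Obj t B o' → o = o') ∧
    (∀ t B o (g : G), Obj t B o → Obj t (g • B) (g • o)) ∧
    (∀ t B o, Obj t B o → C (MulAction.stabilizer G o)) ∧
    ∀ f : (Fin n → ℤ) → Ob, InjW (r + R + a) f →
      (∃ t o, ∀ δ : Fin n → ℤ, Near R δ 0 → Obj t (box r δ f) o) ∨
      ∀ v : Fin n → ℤ, v ≠ 0 → Near a v 0 → ∀ h : G, ¬ TrnW (r + R) f h v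

/-! ### the interface with the algebra -/

/-- the subgroup `H` fixes a point of `Ob` and is not contained in `Z` (`Z` = the scalars) -/
def BddGrp {G : Type} [Group G] (Ob : Type) [MulAction G Ob] (Z H : Subgroup G) : Prop :=
  (∃ x : Ob, H ≤ MulAction.stabilizer G x) ∧ ¬ H ≤ Z

/-- the subgroup `H` is abelian modulo `Z` and contains an element whose `N`-th power moves a point of `Ob` -/
def AblGrp {G : Type} [Group G] (Ob : Type) [MulAction G Ob] (Z : Subgroup G) (N : ℕ) (H : Subgroup G) : Prop :=
  (∀ x ∈ H, ∀ y ∈ H, x * y * x⁻¹ * y⁻¹ ∈ Z) ∧ ∃ h ∈ H, ∃ x : Ob, h ^ N • x ≠ x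

/-- Objects for the subgroups in `K`: a rank `d H ≤ D`, monotone, and an object `O H` which is the same for `H ≤ H'` of the
same rank; both are compatible with conjugation, and the stabiliser of `O H` is in the class. -/
def HasObj (C : (G : Type) → [Group G] → Prop) {G : Type} [Group G] (K : Subgroup G → Prop) (D : ℕ) : Prop :=
  ∃ (Ω : Type) (_ : MulAction G Ω) (d : Subgroup G → ℕ) (O : Subgroup G → Ω),
    (∀ H, K H → d H ≤ D) ∧
    (∀ H H', K H → K H' → H ≤ H' → d H ≤ d H') ∧
    (∀ H H', K H → K H' → H ≤ H' → d H = d H' → O H = O H') ∧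
    (∀ (g : G) H, K H → O (H.map (MulAut.conj g).toMonoidHom) = g • O H) ∧
    (∀ H, K H → C (MulAction.stabilizer G (O H)))

/-! ### the interface with the cover -/

/-- A system of windows of rank `n` over `X`, on the ball of radius `c`, with values in the translates of `Y`: `Rg g` is the
region (an open set) where the window `w g x` is defined, `(g, x) ↦ w g x` is equivariant, locally constant in `x`, and
`w g x` is injective on the ball. -/
structure WinSys {G X Ob : Type} [Group G] [TopologicalSpace X] [MulAction G X] [MulAction G Ob] (n c : ℕ) (Y : Set Ob)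
    (Rg : G → Set X) (w : G → X → (Fin n → ℤ) → Ob) : Prop where
  loc : ∀ g x, x ∈ Rg g → ∃ U : Set X, IsOpen U ∧ x ∈ U ∧ U ⊆ Rg g ∧ ∀ y ∈ U, ∀ p, Near c p 0 → w g y p = w g x p
  rg_smul : ∀ (g h : G) x, x ∈ Rg h → g • x ∈ Rg (g * h)
  equiv : ∀ (g h : G) x, x ∈ Rg h → ∀ p, Near c p 0 → w (g * h) (g • x) p = g • w h x p
  inj : ∀ g x, x ∈ Rg g → InjW c (w g x)
  hull : ∀ g x, x ∈ Rg g → ∃ h : G, ∀ p, Near c p 0 → h • w g x p ∈ Y

/-- the pair `(g, x)` is in the inner region for the set `S`: the windows for the elements `g s` are defined and are shifts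
of each other by vectors of length at most `R` -/
def Inner {G X Ob : Type} [Group G] {n : ℕ} (c R : ℕ) (Rg : G → Set X) (w : G → X → (Fin n → ℤ) → Ob) (S : Set G) (g : G)
    (x : X) : Prop :=
  x ∈ Rg g ∧ ∀ s ∈ S, x ∈ Rg (g * s) ∧ ∃ δ : Fin n → ℤ, Near R δ 0 ∧ ShfW (c - R) δ (w g x) (w (g * s) x)

end Pool.Agent.H2.WN
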