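import Pool.Agent.H2.WN.Defs

/-!
# H2 WN, Code: boxes, and codes for the orbits of boxes
-/

set_option autoImplicit false

namespace Pool.Agent.H2.WN

open Pool.Agent.H65.NT

instance finite_ball (n r : ℕ) : Finite (Ball n r) := by
  refine Set.Finite.subset (Finset.finite_toSet (Fintype.piFinset fun _ : Fin n => Finset.Icc (-(r : ℤ)) (r : ℤ))) ?_
  intro i hi
  rw [Finset.mem_coe, Fintype.mem_piFinset]
  intro k
  have h : |i k - (0 : Fin n → ℤ) k| ≤ (r : ℤ) := hi k
  rw [Pi.zero_apply, sub_zero, abs_le] at h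
  exact Finset.mem_Icc.2 h

theorem near_zero {n a : ℕ} {x : Fin n → ℤ} : Near a x 0 ↔ ∀ k, |x k| ≤ (a : ℤ) := by
  refine forall_congr' fun k => ?_
  rw [Pi.zero_apply, sub_zero]

theorem Near.zero_add {n a b : ℕ} {x y : Fin n → ℤ} (hx : Near a x 0) (hy : Near b y 0) : Near (a + b) (x + y) 0 := by
  rw [near_zero] at hx hy ⊢
  intro k
  rw [Pi.add_apply]
  push_cast
  exact (abs_add_le _ _).trans (add_le_add (hx k) (hy k))

theorem Near.zero_neg {n a : ℕ} {x : Fin n → ℤ} (hx : Near a x 0) : Near a (-x) 0 := by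
  rw [near_zero] at hx ⊢
  intro k
  rw [Pi.neg_apply, abs_neg]
  exact hx k

theorem Near.zero_sub {n a b : ℕ} {x y : Fin n → ℤ} (hx : Near a x 0) (hy : Near b y 0) : Near (a + b) (x - y) 0 := by
  rw [sub_eq_add_neg]
  exact Near.zero_add hx (Near.zero_neg hy)

theorem near_self_zero {n : ℕ} (a : ℕ) : Near a (0 : Fin n → ℤ) 0 := Near.refl a 0

theorem box_eq_iff {n r : ℕ} {Ob : Type} {p q : Fin n → ℤ} {f f' : (Fin n → ℤ) → Ob} :
    box r p f = box r q f' ↔ ∀ i : Fin n → ℤ, Near r i 0 → f (p + i) = f' (q + i) :=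
  ⟨fun h i hi => congrFun h ⟨i, hi⟩, fun h => funext fun i => h i.1 i.2⟩

theorem box_smul_eq_iff {G : Type} [Group G] {n r : ℕ} {Ob : Type} [MulAction G Ob] {g : G} {p q : Fin n → ℤ}
    {f f' : (Fin n → ℤ) → Ob} :
    g • box r p f = box r q f' ↔ ∀ i : Fin n → ℤ, Near r i 0 → g • f (p + i) = f' (q + i) :=
  ⟨fun h i hi => congrFun h ⟨i, hi⟩, fun h => funext fun i => h i.1 i.2⟩

/-- Proof. As `H76.GU.exists_code`. -/
theorem exists_code_w {G Ob : Type} [Group G] [MulAction G Ob] (n r κ c : ℕ) {Y : Set Ob} (hY : Y.Finite)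
    (hE : Y.ncard ≤ 2 ^ (c ^ κ)) :
    ∃ code : Box n Ob r → (Fin (Nat.card (Ball n r) * c ^ κ) → Bool), (∀ (g : G) B, code (g • B) = code B) ∧
      ∀ B B' : Box n Ob r, (∃ g : G, ∀ i, g • B i ∈ Y) → (∃ g : G, ∀ i, g • B' i ∈ Y) → code B = code B' →
        ∃ g : G, g • B = B' := by
  classical
  haveI : Fintype Y := hY.fintype
  haveI : Fintype (Ball n r) := Fintype.ofFinite _
  have hcY : Fintype.card Y ≤ 2 ^ (c ^ κ) := by
    rw [← Nat.card_eq_fintype_card, Nat.card_coe_set_eq]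
    exact hE
  let W : Type := Ball n r → Y
  let φ : W → MulAction.orbitRel.Quotient G (Box n Ob r) := fun w =>
    Quotient.mk (MulAction.orbitRel G (Box n Ob r)) (fun i => ((w i : Y) : Ob))
  have hW : Fintype.card W ≤ 2 ^ (Nat.card (Ball n r) * c ^ κ) := by
    have h1 : Fintype.card W = (Fintype.card Y) ^ (Fintype.card (Ball n r)) := by
      simp only [W, Fintype.card_fun]
    rw [h1, Nat.card_eq_fintype_card]
    calc (Fintype.card Y) ^ (Fintype.card (Ball n r))
        ≤ (2 ^ (c ^ κ)) ^ (Fintype.card (Ball n r)) := Nat.pow_le_pow_left hcY _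
      _ = 2 ^ (Fintype.card (Ball n r) * c ^ κ) := by
          rw [← pow_mul, mul_comm]
  haveI : Fintype (Set.range φ) := (Set.finite_range φ).fintype
  have hS : Fintype.card (Set.range φ) ≤ Fintype.card (Fin (Nat.card (Ball n r) * c ^ κ) → Bool) := by
    have h2 : Fintype.card (Set.range φ) ≤ Fintype.card W :=
      Fintype.card_le_of_surjective (Set.rangeFactorization φ) Set.rangeFactorization_surjective
    have h3 : Fintype.card (Fin (Nat.card (Ball n r) * c ^ κ) → Bool) = 2 ^ (Nat.card (Ball n r) * c ^ κ) := by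
      rw [Fintype.card_fun, Fintype.card_bool, Fintype.card_fin]
    rw [h3]
    exact h2.trans hW
  obtain ⟨e⟩ := Function.Embedding.nonempty_of_card_le hS
  refine ⟨fun B => if h : Quotient.mk (MulAction.orbitRel G (Box n Ob r)) B ∈ Set.range φ then e ⟨_, h⟩
    else fun _ => false, ?_, ?_⟩
  · intro g B
    have h : Quotient.mk (MulAction.orbitRel G (Box n Ob r)) (g • B) = Quotient.mk (MulAction.orbitRel G (Box n Ob r)) B :=
      Quotient.sound ⟨g, rfl⟩
    simp only [h]
  · intro B B' hB hB' hc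
    have key : ∀ B : Box n Ob r, (∃ g : G, ∀ i, g • B i ∈ Y) →
        Quotient.mk (MulAction.orbitRel G (Box n Ob r)) B ∈ Set.range φ := by
      rintro B ⟨g, hg⟩
      refine ⟨fun i => ⟨g • B i, hg i⟩, ?_⟩
      exact Quotient.sound ⟨g, rfl⟩
    have h1 := key B hB
    have h2 := key B' hB'
    simp only [dif_pos h1, dif_pos h2] at hc
    have h3 := e.injective hc
    have h4 : Quotient.mk (MulAction.orbitRel G (Box n Ob r)) B = Quotient.mk (MulAction.orbitRel G (Box n Ob r)) B' :=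
      congrArg Subtype.val h3
    obtain ⟨g, hg⟩ := Quotient.exact h4.symm
    exact ⟨g, hg⟩

end Pool.Agent.H2.WN
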