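import Pool.Agent.H2.WN.Rul

/-!
# H2 WN, Cov: the cover from systems of windows
-/

set_option autoImplicit false

namespace Pool.Agent.H2.WN

open Pool.Agent.H98.FJ Pool.Agent.H76.GT Pool.Agent.H65.NT

theorem WinSys.fla {G X Ob : Type} [Group G] [TopologicalSpace X] [MulAction G X] [MulAction G Ob] {n c : ℕ} {Y : Set Ob}
    {Rg : G → Set X} {w : G → X → (Fin n → ℤ) → Ob} (hw : WinSys n c Y Rg w) {g : G} {x : X} (hx : x ∈ Rg g) :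
    FlaW G c Y (w g x) := ⟨hw.inj g x hx, hw.hull g x hx⟩

/-- the family of a rule. Proof. As `isFam_rul` in `H76/GU/Flt`: the sets are `{x | x ∈ Rg g ∧ Q (w g x) i}`. -/
theorem isFam_rulW {C : (G : Type) → [Group G] → Prop} {G X Ob : Type} [Group G] [TopologicalSpace X] [MulAction G X]
    [MulAction G Ob] {n c : ℕ} {Y : Set Ob} {Rg : G → Set X} {w : G → X → (Fin n → ℤ) → Ob} (hw : WinSys n c Y Rg w)
    {N : ℕ} {I : Type} [MulAction G I] {Q : ((Fin n → ℤ) → Ob) → I → Prop} (hQ : RulW C (G := G) c Y N Q) :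
    IsFam C N (fun (i : I) (g : G) => {x : X | x ∈ Rg g ∧ Q (w g x) i}) := by
  refine ⟨fun i g => ?_, fun i g h x hx => ?_, fun i g h x h1 h2 => ?_, fun i h x h1 => ?_, fun h x => ?_⟩
  · rw [isOpen_iff_forall_mem_open]
    rintro x ⟨h1, h2⟩
    obtain ⟨U, hU, hxU, hUR, hUw⟩ := hw.loc g x h1
    refine ⟨U, fun y hy => ⟨hUR hy, ?_⟩, hU, hxU⟩
    exact hQ.loc (w g x) (w g y) (fun p hp => (hUw y hy p hp).symm) i h2
  · refine ⟨hw.rg_smul g h x hx.1, ?_⟩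
    exact hQ.loc (g • w h x) (w (g * h) (g • x)) (fun p hp => (hw.equiv g h x hx.1 p hp).symm) (g • i)
      (hQ.equiv g _ _ hx.2)
  · exact hQ.eq g _ _ (hw.fla h1.1) h1.2 h2.2
  · exact hQ.stab _ _ (hw.fla h1.1) h1.2
  · by_cases hx : x ∈ Rg h
    · exact (Set.encard_le_encard fun i hi => hi.2).trans (hQ.mult _ (hw.fla hx))
    · have h3 : {i : I | x ∈ {x : X | x ∈ Rg h ∧ Q (w h x) i}} = ∅ :=
        Set.eq_empty_iff_forall_notMem.2 fun i hi => hx hi.1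
      rw [h3, Set.encard_empty]
      exact zero_le

/-- THE THEOREM OF THE CHAPTER WINDOWS. Proof. `small_rules_w` for every `τ`, `isFam_rulW`, `exists_cover_fam`. -/
theorem cover_win {C : (G : Type) → [Group G] → Prop} (hC : Inherits C) {G : Type} [Group G] {ι : Type} [Fintype ι]
    (Ob : ι → Type) [∀ τ, MulAction G (Ob τ)] (hst : ∀ τ (x : Ob τ), C (MulAction.stabilizer G x)) (n : ι → ℕ) (q : ℕ)
    (hR : ∀ τ, LocRigW C G (Ob τ) (n τ) q) (R κ : ℕ) :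
    ∃ c0 : ℕ, ∀ c : ι → ℕ, (∀ τ, c0 ≤ c τ) → ∀ Y : ∀ τ, Set (Ob τ), (∀ τ, (Y τ).Finite) →
      (∀ τ, (Y τ).ncard ≤ 2 ^ (c τ ^ κ)) → ∀ (X : Type) [TopologicalSpace X] [MulAction G X] (Rg : ι → G → Set X)
      (w : ∀ τ, G → X → (Fin (n τ) → ℤ) → Ob τ), (∀ τ, WinSys (n τ) (c τ) (Y τ) (Rg τ) (w τ)) →
      ∀ S : Set G, S.Nonempty → (∀ g x, ∃ τ, Inner (c τ) R (Rg τ) (w τ) S g x) →
      ∃ U : Set (Set (G × X)), IsCover C (∑ τ, (q + 3 ^ (n τ))) S U := by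
  choose c0 hc0 using fun τ => small_rules_w hC (hst τ) (hR τ) R κ
  refine ⟨Finset.univ.sup c0, fun c hc Y hY hE X _ _ Rg w hw S hS hI => ?_⟩
  have hcτ : ∀ τ, c0 τ ≤ c τ := fun τ => (Finset.le_sup (Finset.mem_univ τ)).trans (hc τ)
  choose Φ hΦ hN hQ using fun τ => hc0 τ (c τ) (hcτ τ) (Y τ) (hY τ) (hE τ)
  obtain ⟨F, hF⟩ : ∃ F : (Σ _ : ι, Option (Fin q)) → Fam G X, ∀ t, F t =
      ⟨(Φ t.1 t.2).I, (Φ t.1 t.2).act, fun i g => {x : X | x ∈ Rg t.1 g ∧ (Φ t.1 t.2).Q (w t.1 g x) i}, (Φ t.1 t.2).N⟩ :=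
    ⟨_, fun _ => rfl⟩
  refine exists_cover_fam hC F (fun t => ?_) ?_ S (fun g x => ?_) hS
  · rw [hF]
    letI := (Φ t.1 t.2).act
    exact isFam_rulW (hw t.1) (hΦ t.1 t.2)
  · have e : ∀ t, (F t).N = (Φ t.1 t.2).N := fun t => by rw [hF]
    rw [Finset.sum_congr rfl fun t _ => e t, Fintype.sum_sigma, Finset.sum_congr rfl fun τ _ => hN τ]
    exact Nat.le_succ _
  · obtain ⟨τ, h1, h2⟩ := hI g x
    obtain ⟨t, i, hi⟩ := hQ τ (w τ g x) ((hw τ).fla h1)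
    refine ⟨⟨τ, t⟩, ?_⟩
    rw [hF]
    refine ⟨i, fun s hs => ⟨(h2 s hs).1, ?_⟩⟩
    obtain ⟨δ, hδ, hsh⟩ := (h2 s hs).2
    exact hi (w τ (g * s) x) δ hδ ((hw τ).fla (h2 s hs).1) hsh

end Pool.Agent.H2.WN
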