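import Pool.Agent.H2.WN.Rul

/-!
# H2 WN, Den: windows on a dense invariant set, and the cover
-/

set_option autoImplicit false

namespace Pool.Agent.H2.WN

open Pool.Agent.H98.FJ Pool.Agent.H76.GT Pool.Agent.H65.NT

/-- an equivariant family of sets of points of `B` (nothing is required of the sets as sets of the space) -/
structure PreFam (C : (G : Type) → [Group G] → Prop) {G X : Type} [Group G] [MulAction G X] (B : Set X)
    (N : ℕ) {I : Type} [MulAction G I] (W : I → G → Set X) : Prop where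
  equiv : ∀ (i : I) (g h : G) (x : X), x ∈ B → x ∈ W i h → g • x ∈ W (g • i) (g * h)
  eq : ∀ (i : I) (g h : G) (x : X), x ∈ B → x ∈ W i h → x ∈ W (g • i) h → g • i = i
  stab : ∀ (i : I) (h : G) (x : X), x ∈ B → x ∈ W i h → C (MulAction.stabilizer G i)
  mult : ∀ (h : G) (x : X), x ∈ B → {i | x ∈ W i h}.encard ≤ N

/-- The family of open sets of a family on a dense invariant set. Proof. `isOpen` is clear. For `equiv` translate `U` by `g`
(homeomorphism). For `eq`, `stab`, `mult` intersect finitely many neighbourhoods of `x` and take a point of `B`. -/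
theorem PreFam.dense {C : (G : Type) → [Group G] → Prop} {G X : Type} [Group G] [TopologicalSpace X] [MulAction G X]
    [ContinuousConstSMul G X] {B : Set X} (hB : Dense B) (hB' : ∀ (g : G) (x : X), x ∈ B → g • x ∈ B) {N : ℕ}
    {I : Type} [MulAction G I] {W : I → G → Set X} (h : PreFam C B N W) :
    IsFam C N (fun (i : I) (g : G) => {x : X | ∃ U : Set X, IsOpen U ∧ x ∈ U ∧ ∀ b ∈ U, b ∈ B → b ∈ W i g}) := by
  refine ⟨fun i g => ?_, fun i g k x hx => ?_, fun i g k x h1 h2 => ?_, fun i k x h1 => ?_, fun k x => ?_⟩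
  · rw [isOpen_iff_forall_mem_open]
    rintro x ⟨U, hU, hxU, hUB⟩
    exact ⟨U, fun y hy => ⟨U, hU, hy, hUB⟩, hU, hxU⟩
  · obtain ⟨U, hU, hxU, hUB⟩ := hx
    refine ⟨(fun y : X => g⁻¹ • y) ⁻¹' U, hU.preimage (continuous_const_smul g⁻¹), ?_, fun b hb hbB => ?_⟩
    · show g⁻¹ • g • x ∈ U
      rw [inv_smul_smul]
      exact hxU
    · have h1 := h.equiv i g k (g⁻¹ • b) (hB' _ _ hbB) (hUB _ hb (hB' _ _ hbB))
      rwa [smul_inv_smul] at h1
  · obtain ⟨U, hU, hxU, hUB⟩ := h1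
    obtain ⟨V, hV, hxV, hVB⟩ := h2
    obtain ⟨b, ⟨hbU, hbV⟩, hb⟩ := hB.inter_open_nonempty _ (hU.inter hV) ⟨x, hxU, hxV⟩
    exact h.eq i g k b hb (hUB b hbU hb) (hVB b hbV hb)
  · obtain ⟨U, hU, hxU, hUB⟩ := h1
    obtain ⟨b, hbU, hb⟩ := hB.inter_open_nonempty _ hU ⟨x, hxU⟩
    exact h.stab i k b hb (hUB b hbU hb)
  · by_contra hcon
    obtain ⟨t, ht, htN⟩ := Set.exists_subset_encard_eq (k := ((N + 1 : ℕ) : ℕ∞))
      (s := {i : I | x ∈ {x : X | ∃ U : Set X, IsOpen U ∧ x ∈ U ∧ ∀ b ∈ U, b ∈ B → b ∈ W i k}})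
      (by
        push_cast
        exact Order.add_one_le_of_lt (not_le.1 hcon))
    have hfin : t.Finite := Set.finite_of_encard_eq_coe htN
    choose U hU hxU hUB using fun i : t => ht i.2
    haveI : Finite t := hfin
    obtain ⟨b, hbU, hb⟩ := hB.inter_open_nonempty (⋂ i : t, U i) (isOpen_iInter_of_finite hU)
      ⟨x, Set.mem_iInter.2 hxU⟩
    have h1 : t ⊆ {i | b ∈ W i k} := fun i hi => hUB ⟨i, hi⟩ b (Set.mem_iInter.1 hbU ⟨i, hi⟩) hb
    have h2 := (Set.encard_le_encard h1).trans (h.mult k b hb)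
    rw [htN] at h2
    have h3 : N + 1 ≤ N := by exact_mod_cast h2
    omega

/-- A system of windows of rank `n` over the set `B`, on the ball of radius `c`, with values in the translates of `Y`. -/
structure WinSysB {G X Ob : Type} [Group G] [MulAction G X] [MulAction G Ob] (B : Set X) (n c : ℕ) (Y : Set Ob)
    (Rg : G → Set X) (w : G → X → (Fin n → ℤ) → Ob) : Prop where
  sub : ∀ g, Rg g ⊆ B
  rg_smul : ∀ (g h : G) x, x ∈ Rg h → g • x ∈ Rg (g * h)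
  equiv : ∀ (g h : G) x, x ∈ Rg h → ∀ p, Near c p 0 → w (g * h) (g • x) p = g • w h x p
  inj : ∀ g x, x ∈ Rg g → InjW c (w g x)
  hull : ∀ g x, x ∈ Rg g → ∃ h : G, ∀ p, Near c p 0 → h • w g x p ∈ Y

/-- the pair `(g, x)` is in the inner region for the set `S`: near `x` the windows for the elements `g s` are defined at the
points of `B` and are shifts, by vectors of length at most `R`, of the window of one point `b0` of `B` for the element `g` -/
def InnerB {G X Ob : Type} [Group G] [TopologicalSpace X] {n : ℕ} (B : Set X) (c R : ℕ) (Rg : G → Set X)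
    (w : G → X → (Fin n → ℤ) → Ob) (S : Set G) (g : G) (x : X) : Prop :=
  ∃ U : Set X, IsOpen U ∧ x ∈ U ∧ ∃ b0 ∈ Rg g, ∀ b ∈ U, b ∈ B → ∀ s ∈ S, b ∈ Rg (g * s) ∧
    ∃ δ : Fin n → ℤ, Near R δ 0 ∧ ShfW (c - R) δ (w g b0) (w (g * s) b)

theorem WinSysB.fla {G X Ob : Type} [Group G] [MulAction G X] [MulAction G Ob] {B : Set X} {n c : ℕ} {Y : Set Ob}
    {Rg : G → Set X} {w : G → X → (Fin n → ℤ) → Ob} (hw : WinSysB B n c Y Rg w) {g : G} {x : X} (hx : x ∈ Rg g) :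
    FlaW G c Y (w g x) := ⟨hw.inj g x hx, hw.hull g x hx⟩

/-- the family of a rule -/
theorem preFam_rulW {C : (G : Type) → [Group G] → Prop} {G X Ob : Type} [Group G] [MulAction G X]
    [MulAction G Ob] {B : Set X} {n c : ℕ} {Y : Set Ob} {Rg : G → Set X} {w : G → X → (Fin n → ℤ) → Ob}
    (hw : WinSysB B n c Y Rg w) {N : ℕ} {I : Type} [MulAction G I] {Q : ((Fin n → ℤ) → Ob) → I → Prop}
    (hQ : RulW C (G := G) c Y N Q) :
    PreFam C B N (fun (i : I) (g : G) => {x : X | x ∈ Rg g ∧ Q (w g x) i}) := by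
  refine ⟨fun i g h x _ hx => ?_, fun i g h x _ h1 h2 => ?_, fun i h x _ h1 => ?_, fun h x _ => ?_⟩
  · refine ⟨hw.rg_smul g h x hx.1, ?_⟩
    exact hQ.loc (g • w h x) (w (g * h) (g • x)) (fun p hp => (hw.equiv g h x hx.1 p hp).symm) (g • i)
      (hQ.equiv g _ _ hx.2)
  · exact hQ.eq g _ _ (hw.fla h1.1) h1.2 h2.2
  · exact hQ.stab _ _ (hw.fla h1.1) h1.2
  · by_cases hx : x ∈ Rg h
    · exact (Set.encard_le_encard fun i hi => hi.2).trans (hQ.mult _ (hw.fla hx))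
    · have h3 : {i : I | x ∈ {x : X | x ∈ Rg h ∧ Q (w h x) i}} = ∅ :=
        Set.eq_empty_iff_forall_notMem.2 fun i hi => hx hi.1
      rw [h3, Set.encard_empty]
      exact zero_le

/-- THE THEOREM OF THE CHAPTER WINDOWS, density version. Proof. `small_rules_w` for every `τ`, `preFam_rulW`,
`PreFam.dense`, `exists_cover_fam`. -/
theorem cover_winB {C : (G : Type) → [Group G] → Prop} (hC : Inherits C) {G : Type} [Group G] {ι : Type} [Fintype ι]
    (Ob : ι → Type) [∀ τ, MulAction G (Ob τ)] (hst : ∀ τ (x : Ob τ), C (MulAction.stabilizer G x)) (n : ι → ℕ) (q : ℕ)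
    (hR : ∀ τ, LocRigW C G (Ob τ) (n τ) q) (R κ : ℕ) :
    ∃ c0 : ℕ, ∀ c : ι → ℕ, (∀ τ, c0 ≤ c τ) → ∀ Y : ∀ τ, Set (Ob τ), (∀ τ, (Y τ).Finite) →
      (∀ τ, (Y τ).ncard ≤ 2 ^ (c τ ^ κ)) → ∀ (X : Type) [TopologicalSpace X] [MulAction G X] [ContinuousConstSMul G X]
      (B : Set X), Dense B → (∀ (g : G) (x : X), x ∈ B → g • x ∈ B) → ∀ (Rg : ι → G → Set X)
      (w : ∀ τ, G → X → (Fin (n τ) → ℤ) → Ob τ), (∀ τ, WinSysB B (n τ) (c τ) (Y τ) (Rg τ) (w τ)) →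
      ∀ S : Set G, S.Nonempty → (∀ g x, ∃ τ, InnerB B (c τ) R (Rg τ) (w τ) S g x) →
      ∃ U : Set (Set (G × X)), IsCover C (∑ τ, (q + 3 ^ (n τ))) S U := by
  choose c0 hc0 using fun τ => small_rules_w hC (hst τ) (hR τ) R κ
  refine ⟨Finset.univ.sup c0, fun c hc Y hY hE X _ _ _ B hB hB' Rg w hw S hS hI => ?_⟩
  have hcτ : ∀ τ, c0 τ ≤ c τ := fun τ => (Finset.le_sup (Finset.mem_univ τ)).trans (hc τ)
  choose Φ hΦ hN hQ using fun τ => hc0 τ (c τ) (hcτ τ) (Y τ) (hY τ) (hE τ)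
  obtain ⟨F, hF⟩ : ∃ F : (Σ _ : ι, Option (Fin q)) → Fam G X, ∀ t, F t =
      ⟨(Φ t.1 t.2).I, (Φ t.1 t.2).act, fun i g => {x : X | ∃ U : Set X, IsOpen U ∧ x ∈ U ∧ ∀ b ∈ U, b ∈ B →
        b ∈ {x : X | x ∈ Rg t.1 g ∧ (Φ t.1 t.2).Q (w t.1 g x) i}}, (Φ t.1 t.2).N⟩ :=
    ⟨_, fun _ => rfl⟩
  refine exists_cover_fam hC F (fun t => ?_) ?_ S (fun g x => ?_) hS
  · rw [hF]
    letI := (Φ t.1 t.2).act
    exact (preFam_rulW (hw t.1) (hΦ t.1 t.2)).dense hB hB'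
  · have e : ∀ t, (F t).N = (Φ t.1 t.2).N := fun t => by rw [hF]
    rw [Finset.sum_congr rfl fun t _ => e t, Fintype.sum_sigma, Finset.sum_congr rfl fun τ _ => hN τ]
    exact Nat.le_succ _
  · obtain ⟨τ, U, hU, hxU, b0, h1, h2⟩ := hI g x
    obtain ⟨t, i, hi⟩ := hQ τ (w τ g b0) ((hw τ).fla h1)
    refine ⟨⟨τ, t⟩, ?_⟩
    rw [hF]
    refine ⟨i, fun s hs => ⟨U, hU, hxU, fun b hbU hb => ?_⟩⟩
    obtain ⟨h3, δ, hδ, hsh⟩ := h2 b hbU hb s hs
    exact ⟨h3, hi (w τ (g * s) b) δ hδ ((hw τ).fla h3) hsh⟩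

end Pool.Agent.H2.WN
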