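import Pool.Agent.H2.WN.Code

/-!
# H2 WN, Rig: objects for subgroups give local rigidity of windows
-/

set_option autoImplicit false

namespace Pool.Agent.H2.WN

open Pool.Agent.H98.FJ Pool.Agent.H76.GT Pool.Agent.H65.NT

/-- one family of objects of boxes -/
private structure OB (C : (G : Type) → [Group G] → Prop) (G : Type) [Group G] (n : ℕ) (Ob : Type) [MulAction G Ob]
    (r : ℕ) where
  Ω : Type
  act : MulAction G Ω
  Obj : Box n Ob r → Ω → Prop
  uniq : ∀ B o o', Obj B o → Obj B o' → o = o'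
  equiv : ∀ B o (g : G), Obj B o → Obj (g • B) (g • o)
  stab : ∀ B o, Obj B o → C (MulAction.stabilizer G o)

private theorem locRig_of {C : (G : Type) → [Group G] → Prop} {G Ob : Type} [Group G] [MulAction G Ob] {n q : ℕ}
    (h : ∀ R a : ℕ, ∃ (r : ℕ) (F : Fin q → OB C G n Ob r), ∀ f : (Fin n → ℤ) → Ob, InjW (r + R + a) f →
      (∃ t o, ∀ δ : Fin n → ℤ, Near R δ 0 → (F t).Obj (box r δ f) o) ∨
      ∀ v : Fin n → ℤ, v ≠ 0 → Near a v 0 → ∀ h : G, ¬ TrnW (r + R) f h v) : LocRigW C G Ob n q := by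
  intro R a
  obtain ⟨r, F, hF⟩ := h R a
  exact ⟨r, fun t => (F t).Ω, fun t => (F t).act, fun t => (F t).Obj, fun t => (F t).uniq, fun t => (F t).equiv,
    fun t => (F t).stab, hF⟩

/-- a nonincreasing sequence with values at most `D` is constant somewhere -/
private theorem pig {D : ℕ} (u : ℕ → ℕ) (hD : u 0 ≤ D) (hm : ∀ j, j ≤ D → u (j + 1) ≤ u j) :
    ∃ j, j ≤ D ∧ u j = u (j + 1) := by
  by_contra hcon
  push Not at hcon
  have h : ∀ j, j ≤ D + 1 → u j + j ≤ D := by
    intro j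
    induction j with
    | zero =>
      intro _
      exact hD
    | succ j ih =>
      intro hj
      have h1 := ih (by omega)
      have h2 := hm j (by omega)
      have h3 := hcon j (by omega)
      omega
  have := h (D + 1) le_rfl
  omega

/-- the objects of a functor of subgroups of boxes -/
private theorem obj_fam {C : (G : Type) → [Group G] → Prop} {G Ob : Type} [Group G] [MulAction G Ob]
    {K : Subgroup G → Prop} {D : ℕ} (h : HasObj C K D)
    (hK : ∀ (g : G) H, K H → K (H.map (MulAut.conj g).toMonoidHom)) {n r : ℕ} (R base : ℕ)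
    (FB : ℕ → Box n Ob r → Subgroup G) (FW : ℕ → (Fin n → ℤ) → ((Fin n → ℤ) → Ob) → Subgroup G)
    (hconj : ∀ m (g : G) B, FB m (g • B) = (FB m B).map (MulAut.conj g).toMonoidHom)
    (heq : ∀ m, m ≤ base + 2 * R * (D + 1) + R → ∀ δ f, FB m (box r δ f) = FW m δ f)
    (hmono : ∀ m m' δ δ' f, (∀ x, Near m' (x - δ') 0 → Near m (x - δ) 0) → FW m δ f ≤ FW m' δ' f) :
    ∃ F : Fin (D + 1) → OB C G n Ob r, ∀ f : (Fin n → ℤ) → Ob,
      (∀ j, j ≤ D + 1 → K (FW (base + 2 * R * j) 0 f)) →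
      (∀ j, j ≤ D → ∀ δ, Near R δ 0 → K (FW (base + 2 * R * j + R) δ f)) →
      ∃ t o, ∀ δ : Fin n → ℤ, Near R δ 0 → (F t).Obj (box r δ f) o := by
  obtain ⟨Ω, act, d, O, hd, hm, he, hc, hs⟩ := h
  refine ⟨fun j => ⟨Ω, act, fun B o => K (FB (base + 2 * R * j + R) B) ∧ O (FB (base + 2 * R * j + R) B) = o,
    fun B o o' h1 h2 => h1.2.symm.trans h2.2, ?_, ?_⟩, ?_⟩
  · rintro B o g ⟨h1, h2⟩
    refine ⟨?_, ?_⟩
    · rw [hconj]
      exact hK g _ h1
    · rw [hconj, hc g _ h1, h2]
  · rintro B o ⟨h1, rfl⟩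
    exact hs _ h1
  · intro f h1 h2
    have key : ∀ j, FW (base + 2 * R * (j + 1)) 0 f ≤ FW (base + 2 * R * j) 0 f := fun j => by
      refine hmono _ _ _ _ _ fun x hx => hx.mono ?_
      have : 2 * R * (j + 1) = 2 * R * j + 2 * R := by ring
      omega
    obtain ⟨j, hj, hj'⟩ := pig (D := D) (fun j => d (FW (base + 2 * R * j) 0 f)) (hd _ (h1 0 (Nat.zero_le _)))
      fun j hj => hm _ _ (h1 (j + 1) (by omega)) (h1 j (by omega)) (key j)
    have hj'' : d (FW (base + 2 * R * j) 0 f) = d (FW (base + 2 * R * (j + 1)) 0 f) := hj'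
    refine ⟨⟨j, by omega⟩, O (FW (base + 2 * R * j) 0 f), fun δ hδ => ?_⟩
    have hk := h2 j hj δ hδ
    have e : FB (base + 2 * R * j + R) (box r δ f) = FW (base + 2 * R * j + R) δ f := by
      refine heq _ ?_ δ f
      have : 2 * R * j ≤ 2 * R * (D + 1) := Nat.mul_le_mul_left _ (by omega)
      omega
    have l1 : FW (base + 2 * R * j + R) δ f ≤ FW (base + 2 * R * j) 0 f := by
      refine hmono _ _ _ _ _ fun x hx => ?_
      rw [sub_zero] at hx
      exact Near.zero_sub hx hδ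
    have l2 : FW (base + 2 * R * (j + 1)) 0 f ≤ FW (base + 2 * R * j + R) δ f := by
      refine hmono _ _ _ _ _ fun x hx => ?_
      rw [sub_zero]
      have h3 := Near.zero_add hx hδ
      rw [sub_add_cancel] at h3
      refine h3.mono ?_
      have : 2 * R * (j + 1) = 2 * R * j + 2 * R := by ring
      omega
    have l3 := hm _ _ hk (h1 j (by omega)) l1
    have l4 := hm _ _ (h1 (j + 1) (by omega)) hk l2
    have l5 : d (FW (base + 2 * R * j + R) δ f) = d (FW (base + 2 * R * j) 0 f) := by omega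
    show K (FB (base + 2 * R * j + R) (box r δ f)) ∧ O (FB (base + 2 * R * j + R) (box r δ f)) = _
    rw [e]
    exact ⟨hk, he _ _ hk (h1 j (by omega)) l1 l5⟩

section

variable {G Ob : Type} [Group G] [MulAction G Ob] {n : ℕ}

/-- the pointwise stabiliser of the middle part of radius `m` of a box -/
private def fx {r : ℕ} (m : ℕ) (B : Box n Ob r) : Subgroup G where
  carrier := {g | ∀ i : Ball n r, Near m i.1 0 → g • B i = B i}
  mul_mem' := by
    intro g h hg hh i hi
    rw [mul_smul, hh i hi, hg i hi]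
  one_mem' := fun i _ => one_smul _ _
  inv_mem' := by
    intro g hg i hi
    rw [inv_smul_eq_iff, hg i hi]

/-- the pointwise stabiliser of the part of radius `m` of the window `f` at the position `δ` -/
private def fS (m : ℕ) (δ : Fin n → ℤ) (f : (Fin n → ℤ) → Ob) : Subgroup G where
  carrier := {g | ∀ i, Near m (i - δ) 0 → g • f i = f i}
  mul_mem' := by
    intro g h hg hh i hi
    rw [mul_smul, hh i hi, hg i hi]
  one_mem' := fun i _ => one_smul _ _
  inv_mem' := by
    intro g hg i hi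
    rw [inv_smul_eq_iff, hg i hi]

private theorem fx_box {r m : ℕ} (hm : m ≤ r) (δ : Fin n → ℤ) (f : (Fin n → ℤ) → Ob) :
    (fx m (box r δ f) : Subgroup G) = fS m δ f := by
  ext g
  constructor
  · intro hg i hi
    have h1 := hg ⟨i - δ, hi.mono hm⟩ hi
    have h2 : box r δ f ⟨i - δ, hi.mono hm⟩ = f i := by
      show f (δ + (i - δ)) = f i
      rw [add_sub_cancel]
    rwa [h2] at h1
  · intro hg i hi
    refine hg (δ + i.1) ?_
    rw [add_sub_cancel_left]
    exact hi

private theorem fx_conj {r m : ℕ} (g : G) (B : Box n Ob r) :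
    (fx m (g • B) : Subgroup G) = (fx m B).map (MulAut.conj g).toMonoidHom := by
  ext x
  rw [Subgroup.mem_map]
  constructor
  · intro hx
    refine ⟨g⁻¹ * x * g, ?_, ?_⟩
    · intro i hi
      have h1 : x • g • B i = g • B i := hx i hi
      rw [mul_smul, mul_smul, h1, inv_smul_smul]
    · show g * (g⁻¹ * x * g) * g⁻¹ = x
      group
  · rintro ⟨y, hy, rfl⟩ i hi
    show (g * y * g⁻¹) • g • B i = g • B i
    have h1 : y • B i = B i := hy i hi
    rw [mul_smul, mul_smul, inv_smul_smul, h1]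

private theorem fS_mono {m m' : ℕ} {δ δ' : Fin n → ℤ} {f : (Fin n → ℤ) → Ob}
    (h : ∀ x : Fin n → ℤ, Near m' (x - δ') 0 → Near m (x - δ) 0) : (fS m δ f : Subgroup G) ≤ fS m' δ' f :=
  fun _ hg i hi => hg i (h i hi)

/-- the translations of the middle part of radius `m` of a box -/
private def gen {r : ℕ} (a m : ℕ) (B : Box n Ob r) : Set G :=
  {h | ∃ v : Fin n → ℤ, Near a v 0 ∧ ∀ i j : Ball n r, Near m i.1 0 → j.1 = i.1 + v → h • B i = B j}

/-- the translations of the part of radius `m` of the window `f` at the position `δ` -/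
private def genS (a m : ℕ) (δ : Fin n → ℤ) (f : (Fin n → ℤ) → Ob) : Set G :=
  {h | ∃ v : Fin n → ℤ, Near a v 0 ∧ ∀ i, Near m (i - δ) 0 → h • f i = f (i + v)}

private theorem gen_box {r a m : ℕ} (hm : m + a ≤ r) (δ : Fin n → ℤ) (f : (Fin n → ℤ) → Ob) :
    (gen a m (box r δ f) : Set G) = genS a m δ f := by
  ext h
  constructor
  · rintro ⟨v, hv, hh⟩
    refine ⟨v, hv, fun i hi => ?_⟩
    have h1 := hh ⟨i - δ, hi.mono (by omega)⟩ ⟨i - δ + v, (Near.zero_add hi hv).mono hm⟩ hi rfl
    have h2 : box r δ f ⟨i - δ, hi.mono (by omega)⟩ = f i := by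
      show f (δ + (i - δ)) = f i
      rw [add_sub_cancel]
    have h3 : box r δ f ⟨i - δ + v, (Near.zero_add hi hv).mono hm⟩ = f (i + v) := by
      show f (δ + (i - δ + v)) = f (i + v)
      congr 1
      abel
    rwa [h2, h3] at h1
  · rintro ⟨v, hv, hh⟩
    refine ⟨v, hv, fun i j hi hj => ?_⟩
    show h • f (δ + i.1) = f (δ + j.1)
    rw [hh (δ + i.1) (by rw [add_sub_cancel_left]; exact hi), hj, add_assoc]

private theorem gen_conj {r a m : ℕ} (g : G) (B : Box n Ob r) :
    (gen a m (g • B) : Set G) = (MulAut.conj g).toMonoidHom '' gen a m B := by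
  ext x
  constructor
  · rintro ⟨v, hv, hx⟩
    refine ⟨g⁻¹ * x * g, ⟨v, hv, fun i j hi hj => ?_⟩, ?_⟩
    · have h1 : x • g • B i = g • B j := hx i j hi hj
      rw [mul_smul, mul_smul, h1, inv_smul_smul]
    · show g * (g⁻¹ * x * g) * g⁻¹ = x
      group
  · rintro ⟨y, ⟨v, hv, hy⟩, rfl⟩
    refine ⟨v, hv, fun i j hi hj => ?_⟩
    show (g * y * g⁻¹) • g • B i = g • B j
    have h1 : y • B i = B j := hy i j hi hj
    rw [mul_smul, mul_smul, inv_smul_smul, h1]

private theorem genS_mono {a m m' : ℕ} {δ δ' : Fin n → ℤ} {f : (Fin n → ℤ) → Ob}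
    (h : ∀ x : Fin n → ℤ, Near m' (x - δ') 0 → Near m (x - δ) 0) : (genS a m δ f : Set G) ⊆ genS a m' δ' f := by
  rintro g ⟨v, hv, hg⟩
  exact ⟨v, hv, fun i hi => hg i (h i hi)⟩

end

/-- Commutators of elements of the group generated by `A` are in `Z`, if those of the elements of `A` are. -/
private theorem comm_closure {G : Type} [Group G] {Z : Subgroup G} [Z.Normal] {A : Set G}
    (h : ∀ x ∈ A, ∀ y ∈ A, x * y * x⁻¹ * y⁻¹ ∈ Z) :
    ∀ x ∈ Subgroup.closure A, ∀ y ∈ Subgroup.closure A, x * y * x⁻¹ * y⁻¹ ∈ Z := by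
  have e : ∀ x y : G, x * y * x⁻¹ * y⁻¹ ∈ Z ↔ Commute (x : G ⧸ Z) (y : G ⧸ Z) := by
    intro x y
    rw [← commutatorElement_eq_one_iff_commute, commutatorElement_def, ← QuotientGroup.eq_one_iff]
    exact Iff.rfl
  have s1 : ∀ x ∈ A, ∀ y ∈ Subgroup.closure A, Commute (x : G ⧸ Z) (y : G ⧸ Z) := by
    intro x hx y hy
    induction hy using Subgroup.closure_induction with
    | mem y hy => exact (e x y).1 (h x hx y hy)
    | one => exact Commute.one_right _
    | mul y z _ _ h1 h2 =>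
      have h3 := h1.mul_right h2
      exact h3
    | inv y _ h1 =>
      have h3 := h1.inv_right
      exact h3
  intro x hx y hy
  rw [e]
  induction hx using Subgroup.closure_induction with
  | mem x hx => exact s1 x hx y hy
  | one => exact Commute.one_left _
  | mul x z _ _ h1 h2 =>
    have h3 := h1.mul_left h2
    exact h3
  | inv x _ h1 =>
    have h3 := h1.inv_left
    exact h3

private theorem bdd_conj {G Ob : Type} [Group G] [MulAction G Ob] {Z : Subgroup G} [hZ : Z.Normal] (g : G)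
    (H : Subgroup G) (h : BddGrp Ob Z H) : BddGrp Ob Z (H.map (MulAut.conj g).toMonoidHom) := by
  obtain ⟨⟨x, hx⟩, h2⟩ := h
  refine ⟨⟨g • x, ?_⟩, fun hcon => h2 fun y hy => ?_⟩
  · rintro _ ⟨y, hy, rfl⟩
    show (g * y * g⁻¹) • g • x = g • x
    have h1 : y • x = x := hx hy
    rw [mul_smul, mul_smul, inv_smul_smul, h1]
  · have h3 : g * y * g⁻¹ ∈ Z := hcon ⟨y, hy, rfl⟩
    have h4 := hZ.conj_mem _ h3 g⁻¹
    rw [inv_inv] at h4
    have h5 : g⁻¹ * (g * y * g⁻¹) * g = y := by group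
    rwa [h5] at h4

private theorem abl_conj {G Ob : Type} [Group G] [MulAction G Ob] {Z : Subgroup G} [hZ : Z.Normal] {N : ℕ} (g : G)
    (H : Subgroup G) (h : AblGrp Ob Z N H) : AblGrp Ob Z N (H.map (MulAut.conj g).toMonoidHom) := by
  obtain ⟨h1, y, hy, x, hx⟩ := h
  refine ⟨?_, g * y * g⁻¹, ⟨y, hy, rfl⟩, g • x, fun hcon => hx ?_⟩
  · rintro _ ⟨a, ha, rfl⟩ _ ⟨b, hb, rfl⟩
    have h2 := hZ.conj_mem _ (h1 a ha b hb) g
    have h3 : (g * a * g⁻¹) * (g * b * g⁻¹) * (g * a * g⁻¹)⁻¹ * (g * b * g⁻¹)⁻¹ =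
        g * (a * b * a⁻¹ * b⁻¹) * g⁻¹ := by group
    show (g * a * g⁻¹) * (g * b * g⁻¹) * (g * a * g⁻¹)⁻¹ * (g * b * g⁻¹)⁻¹ ∈ Z
    rw [h3]
    exact h2
  · rw [conj_pow, mul_smul, mul_smul, inv_smul_smul] at hcon
    exact (smul_left_cancel g hcon)

/-- powers of a translation -/
private theorem trn_pow {G Ob : Type} [Group G] [MulAction G Ob] {n m : ℕ} {f : (Fin n → ℤ) → Ob} {h : G}
    {v : Fin n → ℤ} (ht : TrnW m f h v) {a : ℕ} (hv : Near a v 0) : ∀ k : ℕ, k * a ≤ m →
      Near (k * a) (k • v) 0 ∧ h ^ k • f 0 = f (k • v) := by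
  intro k
  induction k with
  | zero =>
    intro _
    refine ⟨?_, ?_⟩
    · rw [zero_smul]
      exact near_self_zero _
    · rw [pow_zero, one_smul, zero_smul]
  | succ k ih =>
    intro hk
    have hk' : k * a + a ≤ m := by
      have : (k + 1) * a = k * a + a := by ring
      omega
    obtain ⟨h1, h2⟩ := ih (by omega)
    refine ⟨?_, ?_⟩
    · rw [succ_nsmul, add_mul, one_mul]
      exact Near.zero_add h1 hv
    · rw [pow_succ', mul_smul, h2, succ_nsmul]
      exact ht _ (h1.mono (by omega))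

/-- Proof. For a box `B` of radius `r` and `m ≤ r` let `P m B` be the pointwise stabiliser of the middle part of radius `m` of
`B`, and let `T m B` (`m + a ≤ r`) be the subgroup generated by the elements `h` such that for some `v` with `Near a v 0` one
has `h • B i = B (i + v)` for all `i` of the middle part of radius `m`.
Given `R`, `a`. Radii: `K j = 2 R j` (`j ≤ D + 1`), `K' j = K (D + 1) + R + N a + a + 2 R j` (`j ≤ D' + 1`), `r` large.
Objects: for `j ≤ D`: `BddGrp Ob Z (P (K j + R) B) ∧ O (P (K j + R) B) = o`; for `j ≤ D'`: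
`AblGrp Ob Z N (T (K' j + R) B) ∧ O' (T (K' j + R) B) = o`. Uniqueness is clear, equivariance because
`P m (g • B) = g (P m B) g⁻¹` and the same for `T`, and `Z` is normal.
Alternative for a window `f` injective on the ball of radius `r + R + a`: write `P m δ` for `P m (box r δ f)`.
If `P (K (D + 1)) 0` is not in `Z` then all `P (K j) 0` are in `BddGrp`, `d (P (K j) 0)` is decreasing in `j` with values at
most `D`, so `d (P (K j) 0) = d (P (K (j + 1)) 0)` for some `j ≤ D`; then
`P (K (j + 1)) 0 ≤ P (K j + R) δ ≤ P (K j) 0` for `|δ| ≤ R` gives the object `j` (with value `O (P (K j) 0)`).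
Otherwise, suppose `h0` translates the ball of radius `r + R` by `v0 ≠ 0`, `|v0| ≤ a`. For generators `h`, `h'` of a group
`T m δ` (`m ≥ K (D + 1) + R + a`) the commutator is in `P (K (D + 1)) 0 ≤ Z`, and `Z` is normal, so all commutators of
elements of `T m δ` are in `Z`; `h0 ∈ T m δ`, `h0 ^ N • f 0 = f (N v0) ≠ f 0`. So the groups `T (K' j) 0`, `T (K' j + R) δ` are
in `AblGrp`, and the same pigeonhole argument gives an object. -/
theorem rig_obj {C : (G : Type) → [Group G] → Prop} {G Ob : Type} [Group G] [MulAction G Ob] (n : ℕ) {Z : Subgroup G}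
    [hZ : Z.Normal] {N D D' : ℕ} (hN : 0 < N) (h1 : HasObj C (BddGrp Ob Z) D) (h2 : HasObj C (AblGrp Ob Z N) D') :
    LocRigW C G Ob n (D + 1 + (D' + 1)) := by
  refine locRig_of fun R a => ?_
  obtain ⟨K1, hK1⟩ : ∃ K1 : ℕ, K1 = 2 * R * (D + 1) := ⟨_, rfl⟩
  obtain ⟨b2, hb2⟩ : ∃ b2 : ℕ, b2 = K1 + R + N * a + a := ⟨_, rfl⟩
  obtain ⟨r, hr⟩ : ∃ r : ℕ, r = b2 + 2 * R * (D' + 1) + R + a := ⟨_, rfl⟩
  obtain ⟨F1, hF1⟩ := obj_fam (G := G) (Ob := Ob) h1 bdd_conj (n := n) (r := r) R 0 (fun m B => fx m B) (fun m δ f => fS m δ f)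
    (fun m g B => fx_conj g B) (fun m hm δ f => fx_box (by omega) δ f) (fun m m' δ δ' f h => fS_mono h)
  obtain ⟨F2, hF2⟩ := obj_fam (G := G) (Ob := Ob) h2 abl_conj (n := n) (r := r) R b2 (fun m B => Subgroup.closure (gen a m B))
    (fun m δ f => Subgroup.closure (genS a m δ f))
    (fun m g B => by rw [gen_conj, MonoidHom.map_closure])
    (fun m hm δ f => by rw [gen_box (by omega)]) (fun m m' δ δ' f h => Subgroup.closure_mono (genS_mono h))
  obtain ⟨F, hFl, hFr⟩ : ∃ F : Fin (D + 1 + (D' + 1)) → OB C G n Ob r, (∀ t, F (Fin.castAdd (D' + 1) t) = F1 t) ∧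
      ∀ t, F (Fin.natAdd (D + 1) t) = F2 t :=
    ⟨fun t => Fin.addCases F1 F2 t, fun t => Fin.addCases_left t, fun t => Fin.addCases_right t⟩
  refine ⟨r, F, fun f hf => ?_⟩
  by_cases hP : (fS K1 0 f : Subgroup G) ≤ Z
  · by_cases hv : ∃ v : Fin n → ℤ, v ≠ 0 ∧ Near a v 0 ∧ ∃ h : G, TrnW (r + R) f h v
    · left
      obtain ⟨v, hv0, hva, h, hh⟩ := hv
      have hpow := trn_pow hh hva N (by omega)
      have hmv : h ^ N • f 0 ≠ f 0 := by
        rw [hpow.2]
        intro hcon
        have h3 := hf _ _ (hpow.1.mono (by omega)) (near_self_zero _) hcon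
        apply hv0
        funext k
        have h4 := congrFun h3 k
        rw [Pi.smul_apply, Pi.zero_apply, nsmul_eq_mul] at h4
        rw [Pi.zero_apply]
        rcases mul_eq_zero.1 h4 with h5 | h5
        · exfalso
          have h6 : N = 0 := by exact_mod_cast h5
          omega
        · exact h5
      -- all groups are in the class `AblGrp`
      have habl : ∀ m, b2 ≤ m → ∀ δ : Fin n → ℤ, Near R δ 0 → m ≤ r →
          AblGrp Ob Z N (Subgroup.closure (genS a m δ f)) := by
        intro m hm δ hδ hm'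
        refine ⟨comm_closure ?_, h, Subgroup.subset_closure ⟨v, hva, fun i hi => hh i ?_⟩, f 0, hmv⟩
        · rintro x ⟨u, hu, hx⟩ y ⟨u', hu', hy⟩
          have h3 : (y * x)⁻¹ * (x * y) ∈ (fS K1 0 f : Subgroup G) := by
            intro i hi
            rw [sub_zero] at hi
            have hi1 : Near m (i - δ) 0 := (Near.zero_sub hi hδ).mono (by omega)
            have hi2 : ∀ w : Fin n → ℤ, Near a w 0 → Near m (i + w - δ) 0 := fun w hw =>
              (Near.zero_sub (Near.zero_add hi hw) hδ).mono (by omega)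
            rw [mul_smul, inv_smul_eq_iff, mul_smul, mul_smul, hy i hi1, hx i hi1, hx _ (hi2 _ hu'), hy _ (hi2 _ hu)]
            congr 1
            abel
          have h4 := hZ.conj_mem _ (hP h3) (y * x)
          have h5 : y * x * ((y * x)⁻¹ * (x * y)) * (y * x)⁻¹ = x * y * x⁻¹ * y⁻¹ := by group
          rwa [h5] at h4
        · have h3 := Near.zero_add hi hδ
          rw [sub_add_cancel] at h3
          exact h3.mono (by omega)
      obtain ⟨t, o, ho⟩ := hF2 f
        (fun j hj => habl _ (Nat.le_add_right _ _) 0 (near_self_zero _) (by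
          have : 2 * R * j ≤ 2 * R * (D' + 1) := Nat.mul_le_mul_left _ hj
          omega))
        (fun j hj δ hδ => habl _ (by omega) δ hδ (by
          have : 2 * R * j ≤ 2 * R * (D' + 1) := Nat.mul_le_mul_left _ (by omega)
          omega))
      refine ⟨Fin.natAdd (D + 1) t, ?_⟩
      rw [hFr]
      exact ⟨o, ho⟩
    · right
      intro v hv0 hva h hh
      exact hv ⟨v, hv0, hva, h, hh⟩
  · left
    have hA : ∀ j, j ≤ D + 1 → BddGrp Ob Z (fS (0 + 2 * R * j) 0 f : Subgroup G) := by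
      intro j hj
      refine ⟨⟨f 0, fun g hg => hg 0 (by rw [sub_zero]; exact near_self_zero _)⟩, fun hcon => hP (le_trans ?_ hcon)⟩
      refine fS_mono fun x hx => hx.mono ?_
      have : 2 * R * j ≤ 2 * R * (D + 1) := Nat.mul_le_mul_left _ hj
      omega
    have hB : ∀ j, j ≤ D → ∀ δ, Near R δ 0 → BddGrp Ob Z (fS (0 + 2 * R * j + R) δ f : Subgroup G) := by
      intro j hj δ hδ
      refine ⟨⟨f δ, fun g hg => hg δ (by rw [sub_self]; exact near_self_zero _)⟩, fun hcon => hP (le_trans ?_ hcon)⟩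
      refine fS_mono fun x hx => ?_
      have h3 := Near.zero_add hx hδ
      rw [sub_add_cancel] at h3
      rw [sub_zero]
      refine h3.mono ?_
      have : 2 * R * (j + 1) ≤ 2 * R * (D + 1) := Nat.mul_le_mul_left _ (by omega)
      have h4 : 2 * R * (j + 1) = 2 * R * j + 2 * R := by ring
      omega
    obtain ⟨t, o, ho⟩ := hF1 f hA hB
    refine ⟨Fin.castAdd (D' + 1) t, ?_⟩
    rw [hFl]
    exact ⟨o, ho⟩

end Pool.Agent.H2.WN
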