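import Pool.Agent.H2.WN.Code
import Pool.Agent.H2.WN.Net

/-!
# H2 WN, Rul: rules for windows
-/

set_option autoImplicit false

namespace Pool.Agent.H2.WN

open Pool.Agent.H98.FJ Pool.Agent.H76.GT Pool.Agent.H65.NT

/-- the window `f` is injective on the ball of radius `c`, and a translate of this part of the window lies in `Y` -/
structure FlaW (G : Type) [Group G] {n : ℕ} {Ob : Type} [MulAction G Ob] (c : ℕ) (Y : Set Ob)
    (f : (Fin n → ℤ) → Ob) : Prop where
  inj : InjW c f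
  mem : ∃ g : G, ∀ p, Near c p 0 → g • f p ∈ Y

/-- a rule: the objects `x` with `Q f x` depend only on the part of the window `f` in the ball of radius `c` -/
structure RulW (C : (G : Type) → [Group G] → Prop) {G : Type} [Group G] {n : ℕ} {Ob : Type} [MulAction G Ob]
    (c : ℕ) (Y : Set Ob) (N : ℕ) {I : Type} [MulAction G I] (Q : ((Fin n → ℤ) → Ob) → I → Prop) : Prop where
  loc : ∀ f f' : (Fin n → ℤ) → Ob, (∀ p, Near c p 0 → f p = f' p) → ∀ x, Q f x → Q f' x
  equiv : ∀ (g : G) f x, Q f x → Q (g • f) (g • x)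
  eq : ∀ (g : G) f x, FlaW G c Y f → Q f x → Q f (g • x) → g • x = x
  stab : ∀ f x, FlaW G c Y f → Q f x → C (MulAction.stabilizer G x)
  mult : ∀ f, FlaW G c Y f → {x | Q f x}.encard ≤ N

/-- a rule with its set of objects -/
structure RulBW (G : Type) [Group G] (n : ℕ) (Ob : Type) where
  /-- the set of objects -/
  I : Type
  act : MulAction G I
  /-- the rule -/
  Q : ((Fin n → ℤ) → Ob) → I → Prop
  /-- the multiplicity -/
  N : ℕ

/-- the positions `p` (at distance at most `l` from the origin) such that no element of the group translates the box of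
radius `r` at `p` by a nonzero vector of length at most `a` -/
def DzW (G : Type) [Group G] {n : ℕ} {Ob : Type} [MulAction G Ob] (l r a : ℕ) (f : (Fin n → ℤ) → Ob) :
    Set (Fin n → ℤ) :=
  {p | Near l p 0 ∧ ∀ v : Fin n → ℤ, v ≠ 0 → Near a v 0 → ∀ h : G,
    ¬ ∀ i : Fin n → ℤ, Near r i 0 → h • f (p + i) = f (p + i + v)}

private theorem dz_smul {G : Type} [Group G] {n : ℕ} {Ob : Type} [MulAction G Ob] (l r a : ℕ) (g : G)
    (f : (Fin n → ℤ) → Ob) : DzW G l r a (g • f) = DzW G l r a f := by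
  ext p
  constructor
  · rintro ⟨h1, h2⟩
    refine ⟨h1, fun v hv hv' h hh => h2 v hv hv' (g * h * g⁻¹) fun i hi => ?_⟩
    show (g * h * g⁻¹) • (g • f (p + i)) = g • f (p + i + v)
    rw [← hh i hi, smul_smul, smul_smul, inv_mul_cancel_right]
  · rintro ⟨h1, h2⟩
    refine ⟨h1, fun v hv hv' h hh => h2 v hv hv' (g⁻¹ * h * g) fun i hi => ?_⟩
    have h4 : h • (g • f (p + i)) = g • f (p + i + v) := hh i hi
    rw [mul_smul, mul_smul, h4, inv_smul_smul]

private theorem dz_shift {G : Type} [Group G] {n : ℕ} {Ob : Type} [MulAction G Ob] {l r a : ℕ}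
    {f f' : (Fin n → ℤ) → Ob} {x δ : Fin n → ℤ} (hl : Near l x 0) (hl' : Near l (x + δ) 0)
    (h : ∀ i, Near (r + a) i 0 → f' (x + i) = f (x + δ + i)) :
    x ∈ DzW G l r a f' ↔ x + δ ∈ DzW G l r a f := by
  have key : ∀ v : Fin n → ℤ, Near a v 0 → ∀ g : G,
      ((∀ i, Near r i 0 → g • f' (x + i) = f' (x + i + v)) ↔
        ∀ i, Near r i 0 → g • f (x + δ + i) = f (x + δ + i + v)) := by
    intro v hv g
    refine forall_congr' fun i => ?_
    constructor
    · intro h5 hi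
      rw [← h i (hi.mono (Nat.le_add_right _ _)), h5 hi, add_assoc, h _ (Near.zero_add hi hv), add_assoc (x + δ)]
    · intro h5 hi
      rw [h i (hi.mono (Nat.le_add_right _ _)), h5 hi, add_assoc x i v, h _ (Near.zero_add hi hv), add_assoc (x + δ) i v]
  constructor
  · rintro ⟨-, h2⟩
    exact ⟨hl', fun v hv hv' g hg => h2 v hv hv' g ((key v hv' g).2 hg)⟩
  · rintro ⟨-, h2⟩
    exact ⟨hl, fun v hv hv' g hg => h2 v hv hv' g ((key v hv' g).1 hg)⟩

/-- a separated set of positions in a box of side `3 b` has at most `3 ^ n` elements -/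
private theorem card_sep {n : ℕ} {b R : ℕ} (hb : b = 2 * R + 1) {Z : Set (Fin n → ℤ)}
    (hZ : ∀ z ∈ Z, ∀ z' ∈ Z, z ≠ z' → ¬ Near b z z') :
    {z | z ∈ Z ∧ Near (b + R) z 0}.encard ≤ ((3 ^ n : ℕ) : ℕ∞) := by
  have hb0 : (0 : ℤ) < b := by
    rw [hb]
    push_cast
    linarith [Int.natCast_nonneg R]
  have hrange : ∀ z : Fin n → ℤ, Near (b + R) z 0 → ∀ k, 0 ≤ (z k + (b + R)) / (b : ℤ) ∧ (z k + (b + R)) / (b : ℤ) < 3 := by
    intro z hz k
    have h1 := hz k
    rw [Pi.zero_apply, sub_zero, abs_le] at h1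
    push_cast at h1
    refine ⟨Int.ediv_nonneg (by linarith [h1.1]) hb0.le, ?_⟩
    rw [Int.ediv_lt_iff_lt_mul hb0]
    have h2 : (b : ℤ) = 2 * R + 1 := by
      rw [hb]
      push_cast
      ring
    linarith [h1.2]
  have hinj : Set.InjOn (fun z : Fin n → ℤ => fun k => (((z k + (b + R)) / (b : ℤ)).toNat : ℕ))
      {z | z ∈ Z ∧ Near (b + R) z 0} := by
    rintro z ⟨hz, hz1⟩ z' ⟨hz', hz1'⟩ heq
    by_contra hne
    refine hZ z hz z' hz' hne fun k => ?_
    have h1 : ((z k + (b + R)) / (b : ℤ)).toNat = ((z' k + (b + R)) / (b : ℤ)).toNat := congrFun heq k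
    have h2 : (z k + (b + R)) / (b : ℤ) = (z' k + (b + R)) / (b : ℤ) := by
      have h3 := Int.toNat_of_nonneg (hrange z hz1 k).1
      have h4 := Int.toNat_of_nonneg (hrange z' hz1' k).1
      rw [← h3, ← h4, h1]
    have h5 := Int.emod_add_mul_ediv (z k + (b + R)) (b : ℤ)
    have h6 := Int.emod_add_mul_ediv (z' k + (b + R)) (b : ℤ)
    have h7 := Int.emod_nonneg (z k + (b + R)) hb0.ne'
    have h8 := Int.emod_lt_of_pos (z k + (b + R)) hb0
    have h9 := Int.emod_nonneg (z' k + (b + R)) hb0.ne'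
    have h10 := Int.emod_lt_of_pos (z' k + (b + R)) hb0
    rw [h2] at h5
    rw [abs_le]
    constructor <;> linarith
  have hmaps : Set.MapsTo (fun z : Fin n → ℤ => fun k => (((z k + (b + R)) / (b : ℤ)).toNat : ℕ))
      {z | z ∈ Z ∧ Near (b + R) z 0} ((Fintype.piFinset fun _ : Fin n => Finset.range 3 : Finset (Fin n → ℕ)) : Set (Fin n → ℕ)) := by
    rintro z ⟨-, hz1⟩
    rw [Finset.mem_coe, Fintype.mem_piFinset]
    intro k
    rw [Finset.mem_range]
    have h1 := hrange z hz1 k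
    have h2 := Int.toNat_of_nonneg h1.1
    have h3 : ((((z k + (b + R)) / (b : ℤ)).toNat : ℕ) : ℤ) < 3 := by
      rw [h2]
      exact h1.2
    exact_mod_cast h3
  calc {z | z ∈ Z ∧ Near (b + R) z 0}.encard
      ≤ ((Fintype.piFinset fun _ : Fin n => Finset.range 3 : Finset (Fin n → ℕ)) : Set (Fin n → ℕ)).encard :=
        Set.encard_le_encard_of_injOn hmaps hinj
    _ = ((3 ^ n : ℕ) : ℕ∞) := by
        rw [Set.encard_coe_eq_coe_finsetCard, Fintype.card_piFinset_const, Finset.card_range]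

/-- Proof. Immediate from the definitions. -/
private theorem box_shf {n : ℕ} {Ob : Type} {r m : ℕ} {δ : Fin n → ℤ} {f f' : (Fin n → ℤ) → Ob} (h : ShfW m δ f f')
    {s : ℕ} {p : Fin n → ℤ} (hp : Near s p 0) (hs : s + r ≤ m) : box r p f' = box r (p + δ) f := by
  rw [box_eq_iff]
  intro i hi
  rw [h _ ((Near.zero_add hp hi).mono hs)]
  congr 1
  abel

/-- The rule of an object. -/
private theorem rul_obj_w {C : (G : Type) → [Group G] → Prop} {G : Type} [Group G] {n : ℕ} {Ob : Type} [MulAction G Ob]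
    {c : ℕ} (Y : Set Ob) {r : ℕ} (hr : r ≤ c) {Ω : Type} [MulAction G Ω]
    {Obj : Box n Ob r → Ω → Prop} (h1 : ∀ B o o', Obj B o → Obj B o' → o = o')
    (h2 : ∀ B o (g : G), Obj B o → Obj (g • B) (g • o)) (h3 : ∀ B o, Obj B o → C (MulAction.stabilizer G o)) :
    RulW C (G := G) c Y 1 (fun f o => Obj (box r 0 f) o) := by
  refine ⟨?_, ?_, ?_, ?_, ?_⟩
  · intro f f' hf x hx
    have e : box r 0 f' = box r 0 f := by
      rw [box_eq_iff]
      intro i hi
      rw [zero_add]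
      exact (hf i (hi.mono hr)).symm
    show Obj (box r 0 f') x
    rw [e]
    exact hx
  · intro g f x hx
    exact h2 _ _ g hx
  · intro g f x _ hx hgx
    exact h1 _ _ _ hgx hx
  · intro f x _ hx
    exact h3 _ _ hx
  · intro f _
    have h : {x | Obj (box r 0 f) x}.encard ≤ 1 := Set.encard_le_one_iff.2 (fun a b ha hb => h1 _ _ _ ha hb)
    exact_mod_cast h

/-- The rule of the net. Here `r` is the radius of the boxes, `R` the bound for the shifts. As `H76.GT.rul_net`. -/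
theorem rul_net_w {C : (G : Type) → [Group G] → Prop} (hC : Inherits C) {G Ob : Type} [Group G] [MulAction G Ob]
    (hst : ∀ x : Ob, C (MulAction.stabilizer G x)) (n R κ r : ℕ) :
    ∃ c0 : ℕ, ∀ c, c0 ≤ c → ∀ Y : Set Ob, Y.Finite → Y.ncard ≤ 2 ^ (c ^ κ) →
      ∃ Q : ((Fin n → ℤ) → Ob) → Box n Ob r → Prop, RulW C (G := G) c Y (3 ^ n) Q ∧
        ∀ f, FlaW G c Y f → (0 : Fin n → ℤ) ∈ DzW G 0 r (4 * (2 * R + 1)) f →
          ∃ B, ∀ (f' : (Fin n → ℤ) → Ob) (δ : Fin n → ℤ), Near R δ 0 → FlaW G c Y f' → ShfW (c - R) δ f f' → Q f' B := by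
  obtain ⟨b, hb⟩ : ∃ b : ℕ, b = 2 * R + 1 := ⟨_, rfl⟩
  obtain ⟨a, ha⟩ : ∃ a : ℕ, a = 4 * (2 * R + 1) := ⟨_, rfl⟩
  rw [← ha]
  obtain ⟨L0, hL0⟩ := net_pow n b (Nat.card (Ball n r)) 4 κ
  refine ⟨max L0 (2 * (2 * b + 4 * R + r + a)), fun c hc Y hY hE => ?_⟩
  obtain ⟨ρ, hρ, rule, hsub, hnet, hloc⟩ := hL0 c ((le_max_left _ _).trans hc)
  have hc2 : 2 * (2 * b + 4 * R + r + a) ≤ c := (le_max_right _ _).trans hc
  obtain ⟨code, hcode, hcode'⟩ := exists_code_w (G := G) n r κ c hY hE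
  obtain ⟨l, hl⟩ : ∃ l : ℕ, l = ρ + b + 2 * R := ⟨_, rfl⟩
  obtain ⟨Z, hZ⟩ : ∃ Z : ((Fin n → ℤ) → Ob) → Set (Fin n → ℤ),
      ∀ f, Z f = rule (DzW G l r a f) (fun p => code (box r p f)) := ⟨_, fun _ => rfl⟩
  have hsz : ρ + 2 * b + 4 * R + r + a ≤ c := by omega
  -- locality
  have key : ∀ (m : ℕ) (f f' : (Fin n → ℤ) → Ob) (δ z : Fin n → ℤ), ShfW m δ f f' → Near R δ 0 → Near (b + R) z 0 →
      ρ + b + R + r + a ≤ m → (z ∈ Z f' ↔ z + δ ∈ Z f) := by
    intro m f f' δ z hs hδ hz hm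
    rw [hZ, hZ]
    apply hloc
    intro x hx
    have hx1 : Near (ρ + (b + R)) x 0 := hx.trans hz
    have hx2 : Near l x 0 := hx1.mono (by omega)
    have hx3 : Near l (x + δ) 0 := (Near.zero_add hx1 hδ).mono (by omega)
    refine ⟨dz_shift hx2 hx3 fun i hi => ?_, ?_⟩
    · rw [hs _ ((Near.zero_add hx1 hi).mono (by omega))]
      congr 1
      abel
    · show code (box r x f') = code (box r (x + δ) f)
      rw [box_shf hs hx1 (by omega)]
  -- the boxes have translates in `Y`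
  have hbox : ∀ f, FlaW G c Y f → ∀ (s : ℕ) (p : Fin n → ℤ), Near s p 0 → s + r ≤ c →
      ∃ g : G, ∀ i, g • box r p f i ∈ Y := by
    intro f hf s p hp hs
    obtain ⟨g, hg⟩ := hf.mem
    exact ⟨g, fun i => hg _ ((Near.zero_add hp i.2).mono hs)⟩
  -- the labels are proper
  have hlab : ∀ f, FlaW G c Y f → ∀ p ∈ DzW G l r a f, ∀ v, v ≠ 0 → Near b v 0 →
      (fun p => code (box r p f)) p ≠ (fun p => code (box r p f)) (p + v) := by
    intro f hf p hp v hv0 hv heq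
    obtain ⟨hp1, hp2⟩ := hp
    obtain ⟨g, hg⟩ := hcode' _ _ (hbox f hf l p hp1 (by omega)) (hbox f hf (l + b) (p + v) (Near.zero_add hp1 hv) (by omega)) heq
    refine hp2 v hv0 (hv.mono (by omega)) g fun i hi => ?_
    rw [box_smul_eq_iff.1 hg i hi]
    congr 1
    abel
  refine ⟨fun f B => ∃ z ∈ Z f, Near (b + R) z 0 ∧ box r z f = B, ⟨?_, ?_, ?_, ?_, ?_⟩, ?_⟩
  · -- loc
    rintro f f' hff B ⟨z, hz, hz1, rfl⟩
    have hs : ShfW c 0 f f' := by
      intro i hi
      rw [add_zero]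
      exact (hff i hi).symm
    refine ⟨z, ?_, hz1, ?_⟩
    · rw [key c f f' 0 z hs (near_self_zero R) hz1 (by omega), add_zero]
      exact hz
    · rw [box_shf hs hz1 (by omega), add_zero]
  · -- equiv
    rintro g f B ⟨z, hz, hz1, rfl⟩
    refine ⟨z, ?_, hz1, rfl⟩
    rw [hZ, dz_smul]
    have h1 : (fun p => code (box r p (g • f))) = fun p => code (box r p f) := by
      funext p
      exact hcode g (box r p f)
    rw [h1, ← hZ]
    exact hz
  · -- eq
    rintro g f B - ⟨z, hz, hz1, rfl⟩ ⟨z', hz', hz1', h2⟩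
    by_cases hzz : z = z'
    · rw [← h2, hzz]
    · exfalso
      rw [hZ] at hz
      obtain ⟨-, h3⟩ := hsub _ _ hz
      refine h3 (z' - z) (sub_ne_zero.2 (Ne.symm hzz)) ((Near.zero_sub hz1' hz1).mono (by omega)) g fun i hi => ?_
      rw [box_smul_eq_iff.1 h2.symm i hi]
      congr 1
      abel
  · -- stab
    rintro f B - ⟨z, -, -, rfl⟩
    have h1 : MulAction.stabilizer G (box r z f) ≤ MulAction.stabilizer G (f z) := by
      intro g hg
      have h2 : g • box r z f = box r z f := hg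
      have h3 := box_smul_eq_iff.1 h2 0 (near_self_zero r)
      rw [add_zero] at h3
      exact h3
    exact hC.iso _ _ (Subgroup.subgroupOfEquivOfLe h1)
      (hC.sub _ ((MulAction.stabilizer G (box r z f)).subgroupOf (MulAction.stabilizer G (f z))) (hst _))
  · -- mult
    intro f hf
    have h1 : {B : Box n Ob r | ∃ z ∈ Z f, Near (b + R) z 0 ∧ box r z f = B} ⊆
        (fun z => box r z f) '' {z | z ∈ Z f ∧ Near (b + R) z 0} := by
      rintro B ⟨z, hz, hz1, rfl⟩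
      exact ⟨z, ⟨hz, hz1⟩, rfl⟩
    refine (Set.encard_le_encard h1).trans ((Set.encard_image_le _ _).trans ?_)
    refine card_sep hb ?_
    rw [hZ]
    exact (hnet _ _ (hlab f hf)).1
  · -- the last clause
    intro f hf h0
    have h0' : (0 : Fin n → ℤ) ∈ DzW G l r a f := ⟨Near.refl _ _, h0.2⟩
    obtain ⟨z, hz, hz1⟩ := (hnet _ _ (hlab f hf)).2 0 h0'
    rw [← hZ] at hz
    refine ⟨box r z f, fun f' δ hδ _ hs => ?_⟩
    have hz2 : Near (b + R) (z - δ) 0 := Near.zero_sub hz1 hδ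
    refine ⟨z - δ, ?_, hz2, ?_⟩
    · rw [key _ f f' δ (z - δ) hs hδ hz2 (by omega), sub_add_cancel]
      exact hz
    · rw [box_shf hs hz2 (by omega), sub_add_cancel]

/-- Proof. `LocRigW` for `R` and `a = 4 (2 R + 1)` gives `r` and the objects; the rules are `rul_obj_w` for `t < q` (`N = 1`)
and `rul_net_w` for the radius `r + R` (`N = 3 ^ n`). -/
theorem small_rules_w {C : (G : Type) → [Group G] → Prop} (hC : Inherits C) {G Ob : Type} [Group G] [MulAction G Ob]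
    (hst : ∀ x : Ob, C (MulAction.stabilizer G x)) {n q : ℕ} (hR : LocRigW C G Ob n q) (R κ : ℕ) :
    ∃ c0 : ℕ, ∀ c, c0 ≤ c → ∀ Y : Set Ob, Y.Finite → Y.ncard ≤ 2 ^ (c ^ κ) →
      ∃ Φ : Option (Fin q) → RulBW G n Ob, (∀ t, @RulW C G _ n Ob _ c Y (Φ t).N (Φ t).I (Φ t).act (Φ t).Q) ∧
        ∑ t, (Φ t).N = q + 3 ^ n ∧
        ∀ f, FlaW G c Y f → ∃ t x, ∀ (f' : (Fin n → ℤ) → Ob) (δ : Fin n → ℤ), Near R δ 0 → FlaW G c Y f' →
          ShfW (c - R) δ f f' → (Φ t).Q f' x := by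
  obtain ⟨r, Ω, act, Obj, h1, h2, h3, h4⟩ := hR R (4 * (2 * R + 1))
  obtain ⟨c1, hc1⟩ := rul_net_w (C := C) hC hst n R κ (r + R)
  refine ⟨max c1 (r + R + 4 * (2 * R + 1)), fun c hc Y hY hE => ?_⟩
  have hcc1 : c1 ≤ c := (le_max_left _ _).trans hc
  have hcc2 : r + R + 4 * (2 * R + 1) ≤ c := (le_max_right _ _).trans hc
  obtain ⟨Q, hQ, hQ2⟩ := hc1 c hcc1 Y hY hE
  obtain ⟨Φ, hn0, hs0⟩ : ∃ Φ : Option (Fin q) → RulBW G n Ob, Φ none = ⟨Box n Ob (r + R), inferInstance, Q, 3 ^ n⟩ ∧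
      ∀ t, Φ (some t) = ⟨Ω t, act t, fun f o => Obj t (box r 0 f) o, 1⟩ :=
    ⟨fun t => Option.rec (motive := fun _ => RulBW G n Ob) ⟨Box n Ob (r + R), inferInstance, Q, 3 ^ n⟩
      (fun t => ⟨Ω t, act t, fun f o => Obj t (box r 0 f) o, 1⟩) t, rfl, fun _ => rfl⟩
  refine ⟨Φ, ?_, ?_, ?_⟩
  · rintro (_ | t)
    · rw [hn0]
      exact hQ
    · rw [hs0]
      let _ := act t
      exact rul_obj_w (C := C) Y (by omega) (h1 t) (h2 t) (h3 t)
  · rw [Fintype.sum_option, hn0]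
    have e : ∀ t, (Φ (some t)).N = 1 := fun t => by rw [hs0]
    rw [Finset.sum_congr rfl fun t _ => e t, Finset.sum_const, Finset.card_univ, Fintype.card_fin, smul_eq_mul, mul_one]
    exact add_comm _ _
  · intro f hf
    have hgeo : InjW (r + R + 4 * (2 * R + 1)) f := by
      intro p p' hp hp' h
      exact hf.inj p p' (hp.mono hcc2) (hp'.mono hcc2) h
    rcases h4 f hgeo with ⟨t, o, ho⟩ | h5
    · refine ⟨some t, ?_⟩
      rw [hs0]
      refine ⟨o, fun f' δ hδ _ hs => ?_⟩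
      show Obj t (box r 0 f') o
      rw [box_shf hs (near_self_zero 0) (by omega), zero_add]
      exact ho δ hδ
    · obtain ⟨B, hB⟩ := hQ2 f hf (by
        refine ⟨Near.refl _ _, fun v hv hva h hcon => h5 v hv hva h (fun i hi => ?_)⟩
        have h6 := hcon i hi
        rwa [zero_add] at h6)
      refine ⟨none, ?_⟩
      rw [hn0]
      exact ⟨B, hB⟩

end Pool.Agent.H2.WN
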